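import Pool.Agent.H94.SLF.M5Defs

/-! Module M5, part 2: frames of polynomial size. -/

set_option autoImplicit false

namespace Pool.Agent.H68.SLF

open Matrix

/-! ### The action on vectors -/

lemma m5_mv (g : G) (x : Fin 3 → ℤ) (i : Fin 3) :
    (g.1.mulVec x) i = g.1 i 0 * x 0 + g.1 i 1 * x 1 + g.1 i 2 * x 2 := by
  simp [Matrix.mulVec, dotProduct, Fin.sum_univ_three]

lemma m5_mul (g h : G) (x : Fin 3 → ℤ) : (g * h).1.mulVec x = g.1.mulVec (h.1.mulVec x) := by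
  rw [Matrix.mulVec_mulVec]; rfl

lemma m5_one (x : Fin 3 → ℤ) : (1 : G).1.mulVec x = x := by
  simp

lemma m5_inv_mul (g : G) (x : Fin 3 → ℤ) : g⁻¹.1.mulVec (g.1.mulVec x) = x := by
  rw [← m5_mul, inv_mul_cancel, m5_one]

lemma m5_mul_inv (g : G) (x : Fin 3 → ℤ) : g.1.mulVec (g⁻¹.1.mulVec x) = x := by
  rw [← m5_mul, mul_inv_cancel, m5_one]

lemma m5_vec_mul {n m : ℕ} {g : G} {x : Fin 3 → ℤ} (hg : Sz n g) (hx : Vs m x) :
    Vs (n + m + 2) (g.1.mulVec x) := by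
  intro i
  rw [m5_mv]
  have hb : ∀ k, (g.1 i k * x k).natAbs < 2 ^ (n + m) := by
    intro k
    rw [Int.natAbs_mul, pow_add]
    exact Nat.mul_lt_mul'' (hg i k).1 (hx k)
  have h0 := hb 0
  have h1 := hb 1
  have h2 := hb 2
  have h3 := Int.natAbs_add_le (g.1 i 0 * x 0 + g.1 i 1 * x 1) (g.1 i 2 * x 2)
  have h4 := Int.natAbs_add_le (g.1 i 0 * x 0) (g.1 i 1 * x 1)
  have h5 : 2 ^ (n + m + 2) = 4 * 2 ^ (n + m) := by rw [pow_add]; ring
  omega

lemma m5_det3 (g : G) (x y z : Fin 3 → ℤ) :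
    det3 (g.1.mulVec x) (g.1.mulVec y) (g.1.mulVec z) = det3 x y z := by
  have hd := g.2
  rw [Matrix.det_fin_three] at hd
  simp only [det3, m5_mv]
  linear_combination (x 0 * (y 1 * z 2 - y 2 * z 1) - x 1 * (y 0 * z 2 - y 2 * z 0) +
    x 2 * (y 0 * z 1 - y 1 * z 0)) * hd

/-! ### SL2 completions -/

/-- bounded Bezout coefficients -/
lemma m5_bez (a b : ℤ) (h : ∃ r s : ℤ, r * a + s * b = 1) :
    ∃ u v : ℤ, u * a + v * b = 1 ∧ u.natAbs ≤ max 1 b.natAbs ∧ v.natAbs ≤ max 1 a.natAbs := by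
  obtain ⟨r, s, hrs⟩ := h
  by_cases hb : b = 0
  · subst hb
    rw [mul_zero, add_zero] at hrs
    have ha : a = 1 ∨ a = -1 := Int.isUnit_iff.1 (IsUnit.of_mul_eq_one_right r hrs)
    refine ⟨a, 0, ?_, ?_, by simp⟩
    · rcases ha with h | h <;> rw [h] <;> norm_num
    · rcases ha with h | h <;> rw [h] <;> norm_num
  · have h0 := Int.emod_nonneg r hb
    have h1 := Int.emod_lt_abs r hb
    rw [Int.abs_eq_natAbs] at h1
    have h2 := Int.emod_add_mul_ediv r b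
    refine ⟨r % b, s + r / b * a, ?_, ?_, ?_⟩
    · linear_combination hrs + a * h2
    · have : (r % b).natAbs ≤ b.natAbs := by omega
      exact this.trans (le_max_right _ _)
    · set u := r % b with hu
      set v := s + r / b * a with hv
      have e : v * b = 1 - u * a := by rw [hv]; linear_combination hrs + a * h2
      have hu1 : u.natAbs + 1 ≤ b.natAbs := by omega
      have e2 : v.natAbs * b.natAbs ≤ 1 + u.natAbs * a.natAbs := by
        rw [← Int.natAbs_mul, ← Int.natAbs_mul, e]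
        omega
      have hbp : 0 < b.natAbs := Int.natAbs_pos.2 hb
      refine Nat.le_of_mul_le_mul_right (e2.trans ?_) hbp
      by_cases ha : a = 0
      · subst ha; simp; omega
      · have hap : 1 ≤ a.natAbs := Int.natAbs_pos.2 ha
        rw [max_eq_right hap]
        calc 1 + u.natAbs * a.natAbs ≤ a.natAbs + u.natAbs * a.natAbs := by omega
          _ = a.natAbs * (u.natAbs + 1) := by ring
          _ ≤ a.natAbs * b.natAbs := Nat.mul_le_mul_left _ hu1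

/-- the matrix of `SL2` with first column proportional to `(b, c)` -/
lemma m5_compl (b c : ℤ) : ∃ x y z w d : ℤ, x * w - y * z = 1 ∧ b = x * d ∧ c = z * d ∧ 0 ≤ d ∧
    (∃ r s : ℤ, d = r * b + s * c) ∧
    x.natAbs ≤ max 1 (max b.natAbs c.natAbs) ∧ y.natAbs ≤ max 1 (max b.natAbs c.natAbs) ∧
    z.natAbs ≤ max 1 (max b.natAbs c.natAbs) ∧ w.natAbs ≤ max 1 (max b.natAbs c.natAbs) ∧
    d.natAbs ≤ max b.natAbs c.natAbs := by
  by_cases h0 : b = 0 ∧ c = 0
  · obtain ⟨rfl, rfl⟩ := h0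
    exact ⟨1, 0, 0, 1, 0, by norm_num, by norm_num, by norm_num, by norm_num, ⟨0, 0, by norm_num⟩,
      by norm_num, by norm_num, by norm_num, by norm_num, by norm_num⟩
  · have hb1 := Int.gcd_eq_gcd_ab b c
    set d : ℤ := ((Int.gcd b c : ℕ) : ℤ) with hd
    obtain ⟨x, hx⟩ : d ∣ b := Int.gcd_dvd_left _ _
    obtain ⟨z, hz⟩ : d ∣ c := Int.gcd_dvd_right _ _
    have hd0 : d ≠ 0 := by
      intro h
      apply h0
      rw [h] at hx hz
      exact ⟨by rw [hx]; ring, by rw [hz]; ring⟩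
    have hd1 : 1 ≤ d.natAbs := Int.natAbs_pos.2 hd0
    have hbez : ∃ r s : ℤ, r * x + s * z = 1 := by
      refine ⟨Int.gcdA b c, Int.gcdB b c, mul_left_cancel₀ hd0 ?_⟩
      calc d * (Int.gcdA b c * x + Int.gcdB b c * z) = (d * x) * Int.gcdA b c +
            (d * z) * Int.gcdB b c := by ring
        _ = d * 1 := by rw [← hx, ← hz, ← hb1, mul_one]
    obtain ⟨u, v, huv, hu, hv⟩ := m5_bez x z hbez
    have hxb : x.natAbs ≤ b.natAbs := by
      rw [hx, Int.natAbs_mul]; exact Nat.le_mul_of_pos_left _ hd1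
    have hzc : z.natAbs ≤ c.natAbs := by
      rw [hz, Int.natAbs_mul]; exact Nat.le_mul_of_pos_left _ hd1
    refine ⟨x, -v, z, u, d, by linear_combination huv, by linarith, by linarith,
      by positivity, ⟨Int.gcdA b c, Int.gcdB b c, ?_⟩, by omega, by omega, by omega, by omega, ?_⟩
    · linarith
    · by_cases hb : b = 0
      · have hc : c ≠ 0 := fun h => h0 ⟨hb, h⟩
        have : z ≠ 0 := by rintro rfl; apply hc; rw [hz]; ring
        have h1 : 1 ≤ z.natAbs := Int.natAbs_pos.2 this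
        have : d.natAbs ≤ c.natAbs := by
          rw [hz, Int.natAbs_mul]; exact Nat.le_mul_of_pos_right _ h1
        omega
      · have : x ≠ 0 := by rintro rfl; apply hb; rw [hx]; ring
        have h1 : 1 ≤ x.natAbs := Int.natAbs_pos.2 this
        have : d.natAbs ≤ b.natAbs := by
          rw [hx, Int.natAbs_mul]; exact Nat.le_mul_of_pos_right _ h1
        omega

/-- lower right block -/
def m5lo (x y z w : ℤ) (h : x * w - y * z = 1) : G :=
  ⟨!![1, 0, 0; 0, x, y; 0, z, w], by simp [Matrix.det_fin_three]; linarith⟩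

/-- upper left block -/
def m5up (x y z w : ℤ) (h : x * w - y * z = 1) : G :=
  ⟨!![x, y, 0; z, w, 0; 0, 0, 1], by simp [Matrix.det_fin_three]; linarith⟩

lemma m5lo_inv (x y z w : ℤ) (h : x * w - y * z = 1) :
    (m5lo x y z w h)⁻¹ = m5lo w (-y) (-z) x (by linarith) := by
  rw [inv_eq_iff_mul_eq_one]
  apply Subtype.ext
  change !![1, 0, 0; 0, x, y; 0, z, w] * !![1, 0, 0; 0, w, -y; 0, -z, x] = 1
  ext i j
  fin_cases i <;> fin_cases j <;>
    simp [Matrix.mul_apply, Fin.sum_univ_three] <;> linarith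

lemma m5up_inv (x y z w : ℤ) (h : x * w - y * z = 1) :
    (m5up x y z w h)⁻¹ = m5up w (-y) (-z) x (by linarith) := by
  rw [inv_eq_iff_mul_eq_one]
  apply Subtype.ext
  change !![x, y, 0; z, w, 0; 0, 0, 1] * !![w, -y, 0; -z, x, 0; 0, 0, 1] = 1
  ext i j
  fin_cases i <;> fin_cases j <;>
    simp [Matrix.mul_apply, Fin.sum_univ_three] <;> linarith

lemma m5lo_sz {x y z w : ℤ} (h : x * w - y * z = 1) {n : ℕ} (hn : 1 < 2 ^ n) (hx : x.natAbs < 2 ^ n)
    (hy : y.natAbs < 2 ^ n) (hz : z.natAbs < 2 ^ n) (hw : w.natAbs < 2 ^ n) :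
    Sz n (m5lo x y z w h) := by
  intro i j
  rw [m5lo_inv]
  have hn' : n ≠ 0 := by rintro rfl; simp at hn
  fin_cases i <;> fin_cases j <;> simp [m5lo, hx, hy, hz, hw, hn']

lemma m5up_sz {x y z w : ℤ} (h : x * w - y * z = 1) {n : ℕ} (hn : 1 < 2 ^ n) (hx : x.natAbs < 2 ^ n)
    (hy : y.natAbs < 2 ^ n) (hz : z.natAbs < 2 ^ n) (hw : w.natAbs < 2 ^ n) :
    Sz n (m5up x y z w h) := by
  intro i j
  rw [m5up_inv]
  have hn' : n ≠ 0 := by rintro rfl; simp at hn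
  fin_cases i <;> fin_cases j <;> simp [m5up, hx, hy, hz, hw, hn']

lemma m5lo_mv (x y z w : ℤ) (h : x * w - y * z = 1) (v : Fin 3 → ℤ) :
    (m5lo x y z w h).1.mulVec v = ![v 0, x * v 1 + y * v 2, z * v 1 + w * v 2] := by
  ext i
  rw [m5_mv]
  fin_cases i <;> simp [m5lo]

lemma m5up_mv (x y z w : ℤ) (h : x * w - y * z = 1) (v : Fin 3 → ℤ) :
    (m5up x y z w h).1.mulVec v = ![x * v 0 + y * v 1, z * v 0 + w * v 1, v 2] := by
  ext i
  rw [m5_mv]
  fin_cases i <;> simp [m5up]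

/-- completion of a primitive vector -/
lemma m5_complete (n : ℕ) (p : Fin 3 → ℤ) (hp : Prim p) (hv : Vs n p) :
    ∃ g : G, Sz (2 * n + 4) g ∧ g.1.mulVec ![1, 0, 0] = p := by
  obtain ⟨r, hr⟩ := hp
  obtain ⟨x, y, z, w, d, h1, hb, hc, hd, ⟨r1, s1, hrs1⟩, bx, by', bz, bw, bd⟩ := m5_compl (p 1) (p 2)
  obtain ⟨x', y', z', w', d', h1', hb', hc', hd', ⟨r2, s2, hrs2⟩, bx', by'', bz', bw', bd'⟩ :=
    m5_compl (p 0) d
  have v0 := hv 0
  have v1 := hv 1
  have v2 := hv 2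
  have hpow : (2 : ℕ) ^ (n + 1) = 2 * 2 ^ n := by rw [pow_succ]; ring
  have hpos : 1 ≤ 2 ^ n := Nat.one_le_two_pow
  have hB : max 1 (max (p 1).natAbs (p 2).natAbs) ≤ 2 ^ n :=
    max_le hpos (max_le v1.le v2.le)
  have hdn : d.natAbs ≤ 2 ^ n := bd.trans (max_le v1.le v2.le)
  have hB' : max 1 (max (p 0).natAbs d.natAbs) ≤ 2 ^ n :=
    max_le hpos (max_le v0.le hdn)
  replace bx := bx.trans hB
  replace by' := by'.trans hB
  replace bz := bz.trans hB
  replace bw := bw.trans hB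
  replace bx' := bx'.trans hB'
  replace by'' := by''.trans hB'
  replace bz' := bz'.trans hB'
  replace bw' := bw'.trans hB'
  clear hB hB' bd bd'
  have hd1 : d' = 1 := by
    have hu : d' * (r 0 * x' + (r 1 * x + r 2 * z) * z') = 1 := by
      rw [← hr, hb, hc]
      linear_combination (-r 0) * hb' - (r 1 * x + r 2 * z) * hc'
    rcases Int.isUnit_iff.1 (IsUnit.of_mul_eq_one _ hu) with h | h
    · exact h
    · omega
  subst hd1
  refine ⟨m5lo x y z w h1 * m5up x' y' z' w' h1', ?_, ?_⟩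
  · have s1 : Sz (n + 1) (m5lo x y z w h1) := by
      apply m5lo_sz <;> omega
    have s2 : Sz (n + 1) (m5up x' y' z' w' h1') := by
      apply m5up_sz <;> omega
    exact (s1.mul s2).mono (by omega)
  · rw [m5_mul, m5up_mv, m5lo_mv]
    ext i
    fin_cases i
    · simp; linarith
    · simp; rw [hb]; linear_combination (-x) * hc'
    · simp; rw [hc]; linear_combination (-z) * hc'

theorem M5_frame : ∃ C : ℕ, ∀ n p q, Prim p → Vs n p → Vs n q → Indep p q →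
    ∃ g : G, Sz (C * (n + 1)) g ∧ g.1.mulVec ![1, 0, 0] = p ∧ (g⁻¹.1.mulVec q) 2 = 0 := by
  refine ⟨13, fun n p q hp hvp hvq _ => ?_⟩
  obtain ⟨g, hg, hgp⟩ := m5_complete n p hp hvp
  have hu := m5_vec_mul hg.inv hvq
  set u := g⁻¹.1.mulVec q with hudef
  have u1 := hu 1
  have u2 := hu 2
  obtain ⟨x, y, z, w, d, h1, hb, hc, hd, -, bx, by', bz, bw, bd⟩ := m5_compl (u 1) (u 2)
  have hpow : (2 : ℕ) ^ (2 * n + 4 + n + 2 + 1) = 2 * 2 ^ (2 * n + 4 + n + 2) := by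
    rw [pow_succ]; ring
  have hpos : 1 ≤ 2 ^ (2 * n + 4 + n + 2) := Nat.one_le_two_pow
  have hB : max 1 (max (u 1).natAbs (u 2).natAbs) ≤ 2 ^ (2 * n + 4 + n + 2) :=
    max_le hpos (max_le u1.le u2.le)
  replace bx := bx.trans hB
  replace by' := by'.trans hB
  replace bz := bz.trans hB
  replace bw := bw.trans hB
  clear hB bd
  have hs : Sz (2 * n + 4 + n + 2 + 1) (m5lo x y z w h1) := by
    apply m5lo_sz <;> omega
  refine ⟨g * m5lo x y z w h1, (hg.mul hs).mono (by omega), ?_, ?_⟩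
  · rw [m5_mul, m5lo_mv, ← hgp]
    congr 1
    ext i
    fin_cases i <;> simp
  · rw [_root_.mul_inv_rev, m5_mul, ← hudef, m5lo_inv, m5lo_mv]
    simp
    rw [hb, hc]; ring

/-- the elementary matrix `e_12(x)` (local copy) -/
def m5e12 (x : ℤ) : G := ⟨!![1, x, 0; 0, 1, 0; 0, 0, 1], by simp [Matrix.det_fin_three]⟩

lemma m5e12_inv (x : ℤ) : (m5e12 x)⁻¹ = m5e12 (-x) := by
  rw [inv_eq_iff_mul_eq_one]
  apply Subtype.ext
  change !![1, x, 0; 0, 1, 0; 0, 0, 1] * !![1, -x, 0; 0, 1, 0; 0, 0, 1] = 1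
  ext i j
  fin_cases i <;> fin_cases j <;>
    simp [Matrix.mul_apply, Fin.sum_univ_three]

lemma m5uu_inv (x y : ℤ) : (uu x y)⁻¹ = uu (-x) (-y) := by
  rw [inv_eq_iff_mul_eq_one]
  apply Subtype.ext
  change !![1, 0, x; 0, 1, y; 0, 0, 1] * !![1, 0, -x; 0, 1, -y; 0, 0, 1] = 1
  ext i j
  fin_cases i <;> fin_cases j <;>
    simp [Matrix.mul_apply, Fin.sum_univ_three]

lemma m5e12_sz {x : ℤ} {n : ℕ} (hn : 1 < 2 ^ n) (hx : x.natAbs < 2 ^ n) : Sz n (m5e12 x) := by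
  intro i j
  rw [m5e12_inv]
  have hn' : n ≠ 0 := by rintro rfl; simp at hn
  fin_cases i <;> fin_cases j <;> simp [m5e12, hx, hn']

lemma m5uu_sz {x y : ℤ} {n : ℕ} (hn : 1 < 2 ^ n) (hx : x.natAbs < 2 ^ n) (hy : y.natAbs < 2 ^ n) :
    Sz n (uu x y) := by
  intro i j
  rw [m5uu_inv]
  have hn' : n ≠ 0 := by rintro rfl; simp at hn
  fin_cases i <;> fin_cases j <;> simp [uu, hx, hy, hn']

lemma m5e12_mv (x : ℤ) (v : Fin 3 → ℤ) :
    (m5e12 x).1.mulVec v = ![v 0 + x * v 1, v 1, v 2] := by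
  ext i
  rw [m5_mv]
  fin_cases i <;> simp [m5e12]

lemma m5uu_mv (x y : ℤ) (v : Fin 3 → ℤ) :
    (uu x y).1.mulVec v = ![v 0 + x * v 2, v 1 + y * v 2, v 2] := by
  ext i
  rw [m5_mv]
  fin_cases i <;> simp [uu]

lemma m5_ediv_natAbs (a b : ℤ) : (a / b).natAbs ≤ a.natAbs := Int.natAbs_ediv_le_natAbs a b

theorem M5_adapt : ∃ C : ℕ, ∀ n x y z, Prim x → Vs n x → Vs n y → Vs n z → det3 x y z ≠ 0 →
    ∃ f : G, Sz (C * (n + 1)) f ∧ f⁻¹.1.mulVec x = ![1, 0, 0] ∧ (f⁻¹.1.mulVec y) 2 = 0 ∧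
      (∀ i, ((f⁻¹.1.mulVec y) i).natAbs ≤ (det3 x y z).natAbs) ∧
      (∀ i, ((f⁻¹.1.mulVec z) i).natAbs ≤ (det3 x y z).natAbs) := by
  obtain ⟨C, hC⟩ := M5_frame
  refine ⟨C + 2 * (C + 4) + 1 + C + 20, fun n x y z hx vx vy vz hdet => ?_⟩
  have hind : Indep x y := by
    rintro ⟨h1, h2, h3⟩
    apply hdet
    simp only [det3]
    linear_combination z 2 * h1 - z 1 * h2 + z 0 * h3
  obtain ⟨f0, hf0, hf0x, hf0y⟩ := hC n x y hx vx vy hind
  have hx' : f0⁻¹.1.mulVec x = ![1, 0, 0] := by rw [← hf0x, m5_inv_mul]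
  have hy' := m5_vec_mul hf0.inv vy
  have hz' := m5_vec_mul hf0.inv vz
  have hD := m5_det3 f0⁻¹ x y z
  rw [hx'] at hD
  set y' := f0⁻¹.1.mulVec y with hy'def
  set z' := f0⁻¹.1.mulVec z with hz'def
  set N := (det3 x y z).natAbs with hN
  have hD' : det3 x y z = y' 1 * z' 2 := by
    rw [← hD]
    simp only [det3, Matrix.cons_val_zero, Matrix.cons_val_one, Matrix.cons_val, hf0y]
    ring
  have hd0 : y' 1 ≠ 0 := by intro h; apply hdet; rw [hD', h]; ring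
  have hc0 : z' 2 ≠ 0 := by intro h; apply hdet; rw [hD', h]; ring
  have hNdc : N = (y' 1).natAbs * (z' 2).natAbs := by rw [hN, hD', Int.natAbs_mul]
  have hdN : (y' 1).natAbs ≤ N := by
    rw [hNdc]; exact Nat.le_mul_of_pos_right _ (Int.natAbs_pos.2 hc0)
  have hcN : (z' 2).natAbs ≤ N := by
    rw [hNdc]; exact Nat.le_mul_of_pos_left _ (Int.natAbs_pos.2 hd0)
  have y0 := hy' 0
  have y1 := hy' 1
  have z0 := hz' 0
  have z1 := hz' 1
  have z2 := hz' 2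
  set K := C * (n + 1) + n + 2 with hK
  have hmod : ∀ a b : ℤ, b ≠ 0 → (a + (-(a / b)) * b).natAbs ≤ b.natAbs := by
    intro a b hb
    have h0 := Int.emod_nonneg a hb
    have h1 := Int.emod_lt_abs a hb
    rw [Int.abs_eq_natAbs] at h1
    have h2 := Int.emod_add_mul_ediv a b
    have h3 : a + (-(a / b)) * b = a % b := by linarith
    rw [h3]
    omega
  set α : ℤ := -(y' 0 / y' 1) with hα
  set γ : ℤ := -(z' 1 / z' 2) with hγ
  set β : ℤ := -((z' 0 + α * z' 1) / z' 2) with hβ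
  have sα : α.natAbs < 2 ^ K := by
    rw [hα, Int.natAbs_neg]; exact (m5_ediv_natAbs _ _).trans_lt y0
  have sγ : γ.natAbs < 2 ^ K := by
    rw [hγ, Int.natAbs_neg]; exact (m5_ediv_natAbs _ _).trans_lt z1
  have hKK : (2 : ℕ) ^ (2 * K + 1) = 2 * (2 ^ K * 2 ^ K) := by
    rw [pow_succ, two_mul, pow_add]; ring
  have hK1 : 1 ≤ 2 ^ K := Nat.one_le_two_pow
  have hK2 : 2 ^ K * 1 ≤ 2 ^ K * 2 ^ K := Nat.mul_le_mul_left _ hK1
  have sβ : β.natAbs < 2 ^ (2 * K + 1) := by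
    rw [hβ, Int.natAbs_neg]
    refine (m5_ediv_natAbs _ _).trans_lt ?_
    have h1 : (α * z' 1).natAbs < 2 ^ K * 2 ^ K := by
      rw [Int.natAbs_mul]; exact Nat.mul_lt_mul'' sα z1
    have h2 := Int.natAbs_add_le (z' 0) (α * z' 1)
    omega
  have su : Sz (2 * K + 1) (uu β γ) := by
    apply m5uu_sz <;> omega
  have hK3 : 4 ≤ 2 ^ K := by
    calc 4 = 2 ^ 2 := by norm_num
      _ ≤ 2 ^ K := Nat.pow_le_pow_right (by norm_num) (by omega)
  have se : Sz K (m5e12 α) := m5e12_sz (by omega) sα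
  have hey : (m5e12 α).1.mulVec y' = ![y' 0 + α * y' 1, y' 1, 0] := by
    rw [m5e12_mv, hf0y]
  have hey2 : (uu β γ * m5e12 α).1.mulVec y' = ![y' 0 + α * y' 1, y' 1, 0] := by
    rw [m5_mul, hey, m5uu_mv]; simp
  have hez2 : (uu β γ * m5e12 α).1.mulVec z' =
      ![z' 0 + α * z' 1 + β * z' 2, z' 1 + γ * z' 2, z' 2] := by
    rw [m5_mul, m5e12_mv, m5uu_mv]; simp
  have hex2 : (uu β γ * m5e12 α).1.mulVec ![1, 0, 0] = ![1, 0, 0] := by
    rw [m5_mul, m5e12_mv, m5uu_mv]; simp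
  refine ⟨f0 * (uu β γ * m5e12 α)⁻¹, ?_, ?_, ?_, ?_, ?_⟩
  · refine (hf0.mul (su.mul se).inv).mono ?_
    have : K = C * (n + 1) + n + 2 := hK
    ring_nf
    ring_nf at this
    omega
  · rw [_root_.mul_inv_rev, inv_inv, m5_mul, hx', hex2]
  · rw [_root_.mul_inv_rev, inv_inv, m5_mul, ← hy'def, hey2]; simp
  · rw [_root_.mul_inv_rev, inv_inv, m5_mul, ← hy'def, hey2]
    intro i
    fin_cases i
    · exact (hmod (y' 0) (y' 1) hd0).trans hdN
    · exact hdN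
    · simp
  · rw [_root_.mul_inv_rev, inv_inv, m5_mul, ← hz'def, hez2]
    intro i
    fin_cases i
    · exact (hmod (z' 0 + α * z' 1) (z' 2) hc0).trans hcN
    · exact (hmod (z' 1) (z' 2) hc0).trans hcN
    · exact hcN

end Pool.Agent.H68.SLF
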