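import Pool.Agent.H94.SLF.M5Mink
import Pool.Agent.H94.SLF.M5Geo

/-! Module M5 of project SLF (geometry of numbers for `SL(3,Z)`): collects
`M5_mink`, `M5_frame`, `M5_adapt`. -/
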