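import Pool.Agent.H68.SLF.Defs

/-! Definitions for the geometry of numbers part (M5) of project SLF. -/

set_option autoImplicit false

namespace Pool.Agent.H68.SLF

open Matrix in
/-- primitive vector -/
def Prim (p : Fin 3 → ℤ) : Prop := ∃ r : Fin 3 → ℤ, r 0 * p 0 + r 1 * p 1 + r 2 * p 2 = 1

/-- the determinant of three column vectors -/
def det3 (x y z : Fin 3 → ℤ) : ℤ :=
  x 0 * (y 1 * z 2 - y 2 * z 1) - x 1 * (y 0 * z 2 - y 2 * z 0) + x 2 * (y 0 * z 1 - y 1 * z 0)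

/-- `x` and `y` are linearly independent -/
def Indep (x y : Fin 3 → ℤ) : Prop :=
  ¬ (x 0 * y 1 = x 1 * y 0 ∧ x 0 * y 2 = x 2 * y 0 ∧ x 1 * y 2 = x 2 * y 1)

/-- all entries `< 2 ^ n` -/
def Vs (n : ℕ) (x : Fin 3 → ℤ) : Prop := ∀ i, (x i).natAbs < 2 ^ n

/-- `g` is a frame at the flag (point `p`, line through `p` and `q`) -/
def Flag (g : G) (p q : Fin 3 → ℤ) : Prop :=
  (g⁻¹.1.mulVec p) 1 = 0 ∧ (g⁻¹.1.mulVec p) 2 = 0 ∧ (g⁻¹.1.mulVec q) 2 = 0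

end Pool.Agent.H68.SLF
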