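import Pool.Agent.H94.SLF.M5Defs

/-! Module M5, part 1: the pigeonhole (Minkowski) lemma. -/

set_option autoImplicit false

namespace Pool.Agent.H68.SLF

/-- the largest `m` with `m ^ 3 < N` -/
lemma m5_cube (N : ℕ) (hN : 2 ≤ N) : ∃ m : ℕ, 1 ≤ m ∧ m ^ 3 < N ∧ N ≤ 8 * m ^ 3 := by
  have hex : ∃ k : ℕ, N ≤ k ^ 3 := ⟨N, Nat.le_self_pow (by norm_num) N⟩
  classical
  obtain ⟨k, hk, hmin⟩ : ∃ k : ℕ, N ≤ k ^ 3 ∧ ∀ j < k, ¬ N ≤ j ^ 3 :=
    ⟨Nat.find hex, Nat.find_spec hex, fun j hj => Nat.find_min hex hj⟩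
  rcases k with _ | _ | k
  · simp at hk; omega
  · simp at hk; omega
  · refine ⟨k + 1, by omega, ?_, ?_⟩
    · have := hmin (k + 1) (by omega)
      omega
    · have h1 : (k + 1 + 1) ^ 3 ≤ (2 * (k + 1)) ^ 3 := Nat.pow_le_pow_left (by omega) 3
      have h2 : (2 * (k + 1)) ^ 3 = 8 * (k + 1) ^ 3 := by ring
      omega

/-- two numbers in the same box of `m` boxes of `[0, N)` -/
lemma m5_box {N m u v : ℕ} (hN : 0 < N) (h : m * u / N = m * v / N) :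
    (m : ℤ) * ((u : ℤ) - v) < N ∧ -(N : ℤ) < (m : ℤ) * ((u : ℤ) - v) := by
  have h1 := Nat.div_add_mod (m * u) N
  have h2 := Nat.div_add_mod (m * v) N
  have h3 := Nat.mod_lt (m * u) hN
  have h4 := Nat.mod_lt (m * v) hN
  rw [h] at h1
  have h5 : (N : ℤ) * ((m * v / N : ℕ) : ℤ) + ((m * u % N : ℕ) : ℤ) = (m : ℤ) * u := by
    exact_mod_cast h1
  have h6 : (N : ℤ) * ((m * v / N : ℕ) : ℤ) + ((m * v % N : ℕ) : ℤ) = (m : ℤ) * v := by
    exact_mod_cast h2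
  have h7 : (m : ℤ) * ((u : ℤ) - v) = ((m * u % N : ℕ) : ℤ) - ((m * v % N : ℕ) : ℤ) := by
    rw [mul_sub, ← h5, ← h6]; ring
  rw [h7]
  constructor <;> omega

/-- make a nonzero vector primitive -/
lemma m5_prim (w : Fin 3 → ℤ) (hw : ¬ (w 0 = 0 ∧ w 1 = 0 ∧ w 2 = 0)) :
    ∃ (g : ℤ) (v : Fin 3 → ℤ), g ≠ 0 ∧ Prim v ∧ ∀ i, w i = g * v i := by
  set g1 : ℤ := ((Int.gcd (w 1) (w 2) : ℕ) : ℤ) with hg1
  set g : ℤ := ((Int.gcd (w 0) g1 : ℕ) : ℤ) with hg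
  have d0 : g ∣ w 0 := Int.gcd_dvd_left _ _
  have d1 : g ∣ g1 := Int.gcd_dvd_right _ _
  have d11 : g1 ∣ w 1 := Int.gcd_dvd_left _ _
  have d12 : g1 ∣ w 2 := Int.gcd_dvd_right _ _
  obtain ⟨v0, h0⟩ := d0
  obtain ⟨v1, h1⟩ := d1.trans d11
  obtain ⟨v2, h2⟩ := d1.trans d12
  have hb1 := Int.gcd_eq_gcd_ab (w 1) (w 2)
  have hb := Int.gcd_eq_gcd_ab (w 0) g1
  have hg0 : g ≠ 0 := by
    intro h
    apply hw
    refine ⟨by rw [h0, h]; ring, by rw [h1, h]; ring, by rw [h2, h]; ring⟩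
  refine ⟨g, ![v0, v1, v2], hg0, ⟨![Int.gcdA (w 0) g1, Int.gcdB (w 0) g1 * Int.gcdA (w 1) (w 2),
    Int.gcdB (w 0) g1 * Int.gcdB (w 1) (w 2)], ?_⟩, ?_⟩
  · simp only [Matrix.cons_val_zero, Matrix.cons_val_one, Matrix.cons_val]
    apply mul_left_cancel₀ hg0
    rw [← hg] at hb
    rw [← hg1] at hb1
    calc _ = (g * v0) * Int.gcdA (w 0) g1 + ((g * v1) * Int.gcdA (w 1) (w 2) +
          (g * v2) * Int.gcdB (w 1) (w 2)) * Int.gcdB (w 0) g1 := by ring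
      _ = w 0 * Int.gcdA (w 0) g1 + (w 1 * Int.gcdA (w 1) (w 2) +
          w 2 * Int.gcdB (w 1) (w 2)) * Int.gcdB (w 0) g1 := by rw [← h0, ← h1, ← h2]
      _ = g * 1 := by rw [← hb1, ← hb]; ring
  · intro i
    fin_cases i
    · simpa using h0
    · simpa using h1
    · simpa using h2

lemma m5_mulcube {N m : ℕ} {δ : ℤ} (hm : 1 ≤ m) (hN : N ≤ 8 * m ^ 3) (h1 : (m : ℤ) * δ < N)
    (h2 : -(N : ℤ) < (m : ℤ) * δ) : δ.natAbs < N ∧ δ.natAbs ^ 3 < 8 * N ^ 2 := by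
  have h3 : m * δ.natAbs < N := by
    have : ((m * δ.natAbs : ℕ) : ℤ) < N := by
      push_cast
      rcases abs_cases δ with ⟨h, _⟩ | ⟨h, _⟩
      · rw [h]; exact h1
      · rw [h]; linarith
    exact_mod_cast this
  refine ⟨lt_of_le_of_lt (Nat.le_mul_of_pos_left _ hm) h3, ?_⟩
  have hN0 : 0 < N := by omega
  have h4 : (m * δ.natAbs) ^ 3 < N ^ 3 := Nat.pow_lt_pow_left h3 (by norm_num)
  have h5 : δ.natAbs ^ 3 * N ≤ 8 * (m * δ.natAbs) ^ 3 := by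
    calc δ.natAbs ^ 3 * N ≤ δ.natAbs ^ 3 * (8 * m ^ 3) := Nat.mul_le_mul_left _ hN
      _ = 8 * (m * δ.natAbs) ^ 3 := by ring
  have h6 : δ.natAbs ^ 3 * N < 8 * N ^ 2 * N := by
    calc δ.natAbs ^ 3 * N ≤ 8 * (m * δ.natAbs) ^ 3 := h5
      _ < 8 * N ^ 3 := by omega
      _ = 8 * N ^ 2 * N := by ring
  exact lt_of_mul_lt_mul_right h6 (Nat.zero_le _)

lemma m5_dvd_small {x y q : ℤ} (h : x = y * q) (hx : x.natAbs < y.natAbs) : q = 0 := by
  by_contra hq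
  have h1 : x.natAbs = y.natAbs * q.natAbs := by rw [h, Int.natAbs_mul]
  have h2 : 1 ≤ q.natAbs := Int.natAbs_pos.2 hq
  have h3 : y.natAbs * 1 ≤ y.natAbs * q.natAbs := Nat.mul_le_mul_left _ h2
  omega

lemma m5_size {N : ℕ} {t d a b c δ0 δ1 δ2 : ℤ} (w : Fin 3 → ℤ) (hN : 2 ≤ N)
    (hdc : (d * c).natAbs = N) (ht : t.natAbs ≤ N) (hd : d.natAbs ≤ N) (ha : a.natAbs ≤ N)
    (hb : b.natAbs ≤ N) (hc : c.natAbs ≤ N) (b0 : δ0.natAbs < N) (b1 : δ1.natAbs < N)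
    (b2 : δ2.natAbs < N) (S0 : (d * c) * w 0 = δ0 + t * δ1 + a * δ2)
    (S1 : (d * c) * w 1 = d * δ1 + b * δ2) (S2 : (d * c) * w 2 = c * δ2) :
    ∀ i, (w i).natAbs ≤ 3 * N := by
  have ab : ∀ x δ : ℤ, x.natAbs ≤ N → δ.natAbs < N → (x * δ).natAbs ≤ N * N := by
    intro x δ hx hδ
    rw [Int.natAbs_mul]
    exact Nat.mul_le_mul hx hδ.le
  have fin : ∀ x y : ℤ, (d * c) * x = y → y.natAbs ≤ 3 * (N * N) → x.natAbs ≤ 3 * N := by
    intro x y h1 h2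
    rw [← h1, Int.natAbs_mul, hdc] at h2
    have : N * x.natAbs ≤ N * (3 * N) := by nlinarith
    exact Nat.le_of_mul_le_mul_left this (by omega)
  have e1 := ab t δ1 ht b1
  have e2 := ab a δ2 ha b2
  have e3 := ab d δ1 hd b1
  have e4 := ab b δ2 hb b2
  have e5 := ab c δ2 hc b2
  have e6 : δ0.natAbs ≤ N * N := le_trans b0.le (Nat.le_mul_self N)
  generalize N * N = M at *
  generalize t * δ1 = x1 at *
  generalize a * δ2 = x2 at *
  generalize d * δ1 = x3 at *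
  generalize b * δ2 = x4 at *
  generalize c * δ2 = x5 at *
  have g0 : (w 0).natAbs ≤ 3 * N := fin (w 0) _ S0 (by omega)
  have g1 : (w 1).natAbs ≤ 3 * N := fin (w 1) _ S1 (by omega)
  have g2 : (w 2).natAbs ≤ 3 * N := fin (w 2) _ S2 (by omega)
  exact fun i => match i with
    | 0 => g0
    | 1 => g1
    | 2 => g2

/-- Minkowski / pigeonhole, before making the vector primitive -/
lemma m5_mink' : ∀ (N : ℕ) (t d a b c : ℤ), 2 ≤ N → (d * c).natAbs = N → t.natAbs ≤ N →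
    d.natAbs ≤ N → a.natAbs ≤ N → b.natAbs ≤ N → c.natAbs ≤ N →
    ∃ w : Fin 3 → ℤ, ¬ (w 0 = 0 ∧ w 1 = 0 ∧ w 2 = 0) ∧ (∀ i, (w i).natAbs ≤ 3 * N) ∧
      ((det3 w ![t, d, 0] ![a, b, c]).natAbs < N ∧
        (det3 w ![t, d, 0] ![a, b, c]).natAbs ^ 3 < 8 * N ^ 2) ∧
      ((det3 ![1, 0, 0] w ![a, b, c]).natAbs < N ∧
        (det3 ![1, 0, 0] w ![a, b, c]).natAbs ^ 3 < 8 * N ^ 2) ∧
      ((det3 ![1, 0, 0] ![t, d, 0] w).natAbs < N ∧
        (det3 ![1, 0, 0] ![t, d, 0] w).natAbs ^ 3 < 8 * N ^ 2) := by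
  intro N t d a b c hN hdc ht hd ha hb hc
  obtain ⟨m, hm1, hm2, hm3⟩ := m5_cube N hN
  have hN0 : (N : ℤ) ≠ 0 := by positivity
  have hNp : (0 : ℤ) < N := by positivity
  -- the sign
  obtain ⟨s, hs⟩ : ∃ s : ℤ, (N : ℤ) = s * (d * c) ∧ (s = 1 ∨ s = -1) := by
    rcases Int.natAbs_eq (d * c) with h | h
    · exact ⟨1, by rw [hdc] at h; linarith, Or.inl rfl⟩
    · exact ⟨-1, by rw [hdc] at h; linarith, Or.inr rfl⟩
  obtain ⟨hs1, hs2⟩ := hs
  -- the functionals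
  let f0 : ℤ → ℤ → ℤ := fun i j => - i * (t * c) + j * (t * b - d * a)
  let f1 : ℤ → ℤ → ℤ := fun i j => i * c - j * b
  let f2 : ℤ → ℤ → ℤ := fun _ j => d * j
  let bx : ℤ → ℕ := fun u => m * (u % N).toNat / N
  let F : ℕ × ℕ → ℕ × ℕ × ℕ := fun p =>
    (bx (f0 p.1 p.2), bx (f1 p.1 p.2), bx (f2 p.1 p.2))
  have hbx : ∀ u, bx u < m := by
    intro u
    have h1 : (u % N).toNat < N := by
      have := Int.emod_lt_of_pos u hNp
      have := Int.emod_nonneg u hN0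
      omega
    apply Nat.div_lt_of_lt_mul
    rw [mul_comm N m]
    exact Nat.mul_lt_mul_of_pos_left h1 (by omega)
  have hcard : (Finset.range m ×ˢ (Finset.range m ×ˢ Finset.range m)).card <
      (Finset.range d.natAbs ×ˢ Finset.range c.natAbs).card := by
    simp only [Finset.card_product, Finset.card_range]
    rw [← Int.natAbs_mul, hdc]
    calc m * (m * m) = m ^ 3 := by ring
      _ < N := hm2
  have hmaps : ∀ p ∈ Finset.range d.natAbs ×ˢ Finset.range c.natAbs,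
      F p ∈ Finset.range m ×ˢ (Finset.range m ×ˢ Finset.range m) := by
    intro p _
    simp only [F, Finset.mem_product, Finset.mem_range]
    exact ⟨hbx _, hbx _, hbx _⟩
  obtain ⟨p, hp, p', hp', hne, heq⟩ := Finset.exists_ne_map_eq_of_card_lt_of_maps_to hcard hmaps
  simp only [Finset.mem_product, Finset.mem_range] at hp hp'
  simp only [F, Prod.mk.injEq] at heq
  obtain ⟨e0, e1, e2⟩ := heq
  have key : ∀ u v : ℤ, bx u = bx v → ∃ δ q : ℤ, u - v = δ + N * q ∧ (m : ℤ) * δ < N ∧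
      -(N : ℤ) < (m : ℤ) * δ := by
    intro u v h
    have h1 := m5_box (by omega) h
    have a1 := Int.emod_nonneg u hN0
    have a2 := Int.emod_nonneg v hN0
    rw [Int.toNat_of_nonneg a1, Int.toNat_of_nonneg a2] at h1
    refine ⟨u % N - v % N, u / N - v / N, ?_, h1.1, h1.2⟩
    have := Int.emod_add_mul_ediv u N
    have := Int.emod_add_mul_ediv v N
    linarith
  obtain ⟨δ0, q0, k0, l0, r0⟩ := key _ _ e0
  obtain ⟨δ1, q1, k1, l1, r1⟩ := key _ _ e1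
  obtain ⟨δ2, q2, k2, l2, r2⟩ := key _ _ e2
  have b0 := m5_mulcube hm1 hm3 l0 r0
  have b1 := m5_mulcube hm1 hm3 l1 r1
  have b2 := m5_mulcube hm1 hm3 l2 r2
  set i : ℤ := (p.1 : ℤ) - p'.1 with hi
  set j : ℤ := (p.2 : ℤ) - p'.2 with hj
  have K0 : - i * (t * c) + j * (t * b - d * a) = δ0 + N * q0 := by
    rw [← k0]; simp only [f0, hi, hj]; ring
  have K1 : i * c - j * b = δ1 + N * q1 := by
    rw [← k1]; simp only [f1, hi, hj]; ring
  have K2 : d * j = δ2 + N * q2 := by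
    rw [← k2]; simp only [f2, hj]; ring
  let w : Fin 3 → ℤ := ![- s * (q0 + t * q1 + a * q2), i - s * (d * q1 + b * q2), j - s * (c * q2)]
  have w0 : w 0 = - s * (q0 + t * q1 + a * q2) := rfl
  have w1 : w 1 = i - s * (d * q1 + b * q2) := rfl
  have w2 : w 2 = j - s * (c * q2) := rfl
  have D0 : det3 w ![t, d, 0] ![a, b, c] = δ0 := by
    have : det3 w ![t, d, 0] ![a, b, c] = w 0 * (d * c) - w 1 * (t * c) + w 2 * (t * b - d * a) := by
      simp [det3]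
    rw [this, w0, w1, w2]
    linear_combination K0 + q0 * hs1
  have D1 : det3 ![1, 0, 0] w ![a, b, c] = δ1 := by
    have : det3 ![1, 0, 0] w ![a, b, c] = w 1 * c - w 2 * b := by
      simp [det3]
    rw [this, w1, w2]
    linear_combination K1 + q1 * hs1
  have D2 : det3 ![1, 0, 0] ![t, d, 0] w = δ2 := by
    have : det3 ![1, 0, 0] ![t, d, 0] w = d * w 2 := by
      simp [det3]
    rw [this, w2]
    linear_combination K2 + q2 * hs1
  have hw : ¬ (w 0 = 0 ∧ w 1 = 0 ∧ w 2 = 0) := by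
    rintro ⟨-, h1, h2⟩
    rw [w1] at h1
    rw [w2] at h2
    have hjs : j.natAbs < c.natAbs := by omega
    have his : i.natAbs < d.natAbs := by omega
    have hjc : j = c * (s * q2) := by linarith
    have hz := m5_dvd_small hjc hjs
    have hs0 : s ≠ 0 := by rcases hs2 with h | h <;> rw [h] <;> norm_num
    have hq2 : q2 = 0 := by
      rcases mul_eq_zero.1 hz with h | h
      · exact absurd h hs0
      · exact h
    have hj0 : j = 0 := by rw [hjc, hz, mul_zero]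
    rw [hq2] at h1
    have hid : i = d * (s * q1) := by linarith
    have hz1 := m5_dvd_small hid his
    have hi0 : i = 0 := by rw [hid, hz1, mul_zero]
    apply hne
    ext
    · omega
    · omega
  -- sizes
  have S0 : (d * c) * w 0 = δ0 + t * δ1 + a * δ2 := by
    rw [← D0, ← D1, ← D2]
    simp only [det3, Matrix.cons_val_zero, Matrix.cons_val_one, Matrix.cons_val]
    ring
  have S1 : (d * c) * w 1 = d * δ1 + b * δ2 := by
    rw [← D1, ← D2]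
    simp only [det3, Matrix.cons_val_zero, Matrix.cons_val_one, Matrix.cons_val]
    ring
  have S2 : (d * c) * w 2 = c * δ2 := by
    rw [← D2]
    simp only [det3, Matrix.cons_val_zero, Matrix.cons_val_one, Matrix.cons_val]
    ring
  have hwN : ∀ i, (w i).natAbs ≤ 3 * N :=
    m5_size w hN hdc ht hd ha hb hc b0.1 b1.1 b2.1 S0 S1 S2
  exact ⟨w, hw, hwN, by rw [D0]; exact b0, by rw [D1]; exact b1, by rw [D2]; exact b2⟩

/-- Minkowski / pigeonhole -/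
theorem M5_mink : ∀ (N : ℕ) (t d a b c : ℤ), 2 ≤ N → (d * c).natAbs = N → t.natAbs ≤ N →
    d.natAbs ≤ N → a.natAbs ≤ N → b.natAbs ≤ N → c.natAbs ≤ N →
    ∃ w : Fin 3 → ℤ, Prim w ∧ (∀ i, (w i).natAbs ≤ 3 * N) ∧
      ((det3 w ![t, d, 0] ![a, b, c]).natAbs < N ∧
        (det3 w ![t, d, 0] ![a, b, c]).natAbs ^ 3 < 8 * N ^ 2) ∧
      ((det3 ![1, 0, 0] w ![a, b, c]).natAbs < N ∧
        (det3 ![1, 0, 0] w ![a, b, c]).natAbs ^ 3 < 8 * N ^ 2) ∧
      ((det3 ![1, 0, 0] ![t, d, 0] w).natAbs < N ∧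
        (det3 ![1, 0, 0] ![t, d, 0] w).natAbs ^ 3 < 8 * N ^ 2) := by
  intro N t d a b c hN hdc ht hd ha hb hc
  obtain ⟨w, hw, hwN, b0, b1, b2⟩ := m5_mink' N t d a b c hN hdc ht hd ha hb hc
  obtain ⟨g, v, hg, hv, hgv⟩ := m5_prim w hw
  have hg1 : 1 ≤ g.natAbs := Int.natAbs_pos.2 hg
  have le : ∀ x y : ℤ, x = g * y → y.natAbs ≤ x.natAbs := by
    intro x y h
    rw [h, Int.natAbs_mul]
    exact Nat.le_mul_of_pos_left _ hg1
  have mono : ∀ x y : ℤ, x = g * y → (x.natAbs < N ∧ x.natAbs ^ 3 < 8 * N ^ 2) →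
      (y.natAbs < N ∧ y.natAbs ^ 3 < 8 * N ^ 2) := by
    intro x y h ⟨h1, h2⟩
    have := le x y h
    exact ⟨by omega, lt_of_le_of_lt (Nat.pow_le_pow_left this 3) h2⟩
  have e0 := hgv 0
  have e1 := hgv 1
  have e2 := hgv 2
  refine ⟨v, hv, fun i => (le _ _ (hgv i)).trans (hwN i), mono _ _ ?_ b0, mono _ _ ?_ b1,
    mono _ _ ?_ b2⟩
  all_goals
    simp only [det3, e0, e1, e2]
    ring

end Pool.Agent.H68.SLF
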